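import Mathlib

open Real MeasureTheory Set Filter Topology
open Complex (I)

namespace Pool.Agent.Results.MP_f617a8_an.Yes

/-- Lebesgue measure on `(0, π)` -/
noncomputable abbrev mu : Measure ℝ := volume.restrict (Ioo 0 π)

instance : IsFiniteMeasure mu := by
  unfold mu; exact isFiniteMeasure_restrict_Ioo 0 π

lemma uniqR (φ ψ : ℝ → ℝ) (hφ : Measurable φ) (hψ : Measurable ψ)
    (hinv : ∀ x ∈ Ioo 0 π, ψ (φ x) = x) (h : ℝ → ℝ) (hi : Integrable h mu)
    (h0 : ∀ τ : ℝ, ∫ x, (h x : ℂ) * Complex.exp (τ * φ x * I) ∂mu = 0) : h =ᵐ[mu] 0 := by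
  have key : ∀ g : ℝ → ℝ, Integrable g mu → ∀ τ : ℝ,
      charFun ((mu.withDensity fun x => ENNReal.ofReal (g x)).map φ) τ =
        ∫ x, ((max (g x) 0 : ℝ) : ℂ) * Complex.exp (τ * φ x * I) ∂mu := by
    intro g hg τ
    rw [charFun_apply_real, integral_map hφ.aemeasurable (by fun_prop)]
    have := integral_withDensity_eq_integral_smul₀ (μ := mu)
      (f := fun x => (g x).toNNReal) (hg.aemeasurable.real_toNNReal)
      (fun x => Complex.exp (τ * φ x * I))
    refine this.trans (integral_congr_ae (Eventually.of_forall fun x => ?_))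
    simp [NNReal.smul_def]
  have ib : ∀ g : ℝ → ℝ, Integrable g mu → ∀ τ : ℝ,
      Integrable (fun x => (g x : ℂ) * Complex.exp (τ * φ x * I)) mu := by
    intro g hg τ
    refine hg.ofReal.mul_bdd (c := 1) (by fun_prop) (Eventually.of_forall fun x => ?_)
    rw [← Complex.ofReal_mul, Complex.norm_exp_ofReal_mul_I]
  have := isFiniteMeasure_withDensity_ofReal hi.2
  have := isFiniteMeasure_withDensity_ofReal hi.neg.2
  have e1 : (mu.withDensity fun x => ENNReal.ofReal (h x)).map φ =
      (mu.withDensity fun x => ENNReal.ofReal ((-h) x)).map φ := by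
    refine Measure.ext_of_charFun (funext fun τ => ?_)
    rw [key h hi, key (-h) hi.neg, ← sub_eq_zero,
      ← integral_sub (ib _ hi.pos_part τ) (ib _ hi.neg.pos_part τ), ← h0 τ]
    refine integral_congr_ae (Eventually.of_forall fun x => ?_)
    have : max (h x) 0 - max (-h x) 0 = h x := max_zero_sub_max_neg_zero_eq_self (h x)
    simp only [Pi.neg_apply]
    rw [← sub_mul, ← Complex.ofReal_sub, this]
  have back : ∀ g : ℝ → ENNReal, ((mu.withDensity g).map φ).map ψ = mu.withDensity g := by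
    intro g
    rw [Measure.map_map hψ hφ]
    have : (ψ ∘ φ) =ᵐ[mu.withDensity g] id :=
      (withDensity_absolutelyContinuous mu g).ae_le
        ((ae_restrict_mem measurableSet_Ioo).mono fun x hx => hinv x hx)
    rw [Measure.map_congr this, Measure.map_id]
  have e2 := congrArg (Measure.map ψ) e1
  rw [back, back, withDensity_eq_iff_of_sigmaFinite hi.aemeasurable.ennreal_ofReal
    hi.neg.aemeasurable.ennreal_ofReal] at e2
  filter_upwards [e2] with x hx
  simp only [Pi.neg_apply] at hx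
  rcases le_total (h x) 0 with h1 | h1
  · rw [ENNReal.ofReal_of_nonpos h1, eq_comm, ENNReal.ofReal_eq_zero] at hx
    simp; linarith
  · rw [ENNReal.ofReal_of_nonpos (by linarith : -h x ≤ 0), ENNReal.ofReal_eq_zero] at hx
    simp; linarith

lemma uniq (φ ψ : ℝ → ℝ) (hφ : Measurable φ) (hψ : Measurable ψ)
    (hinv : ∀ x ∈ Ioo 0 π, ψ (φ x) = x) (h : ℝ → ℂ) (hi : Integrable h mu)
    (h0 : ∀ τ : ℝ, ∫ x, h x * Complex.exp (τ * φ x * I) ∂mu = 0) : h =ᵐ[mu] 0 := by
  have ib : ∀ g : ℝ → ℂ, Integrable g mu → ∀ τ : ℝ,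
      Integrable (fun x => g x * Complex.exp (τ * φ x * I)) mu := by
    intro g hg τ
    refine hg.mul_bdd (c := 1) (by fun_prop) (Eventually.of_forall fun x => ?_)
    rw [← Complex.ofReal_mul, Complex.norm_exp_ofReal_mul_I]
  have hc : Integrable (fun x => (starRingEnd ℂ) (h x)) mu :=
    (RCLike.conjLIE (K := ℂ)).toContinuousLinearEquiv.toContinuousLinearMap.integrable_comp hi
  have h1 : ∀ τ : ℝ, ∫ x, (starRingEnd ℂ) (h x) * Complex.exp (τ * φ x * I) ∂mu = 0 := by
    intro τ
    have := congrArg (starRingEnd ℂ) (h0 (-τ))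
    rw [← integral_conj, map_zero] at this
    rw [← this]
    refine integral_congr_ae (Eventually.of_forall fun x => ?_)
    simp [← Complex.exp_conj]
  have hre := uniqR φ ψ hφ hψ hinv (fun x => (h x).re) hi.re (fun τ => by
    have := integral_add (ib _ hi τ) (ib _ hc τ)
    rw [h0, h1, add_zero] at this
    have h2 := integral_const_mul (μ := mu) (2:ℂ)
      (fun x => ((h x).re : ℂ) * Complex.exp (τ * φ x * I))
    have h3 : ∫ x, (2:ℂ) * (((h x).re : ℂ) * Complex.exp (τ * φ x * I)) ∂mu = 0 := by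
      rw [← this]
      refine integral_congr_ae (Eventually.of_forall fun x => ?_)
      simp only [← add_mul, Complex.add_conj]; push_cast; ring
    rw [h3] at h2
    simpa using h2.symm)
  have him := uniqR φ ψ hφ hψ hinv (fun x => (h x).im) hi.im (fun τ => by
    have := integral_sub (ib _ hi τ) (ib _ hc τ)
    rw [h0, h1, sub_zero] at this
    have h2 := integral_const_mul (μ := mu) (2 * I)
      (fun x => ((h x).im : ℂ) * Complex.exp (τ * φ x * I))
    have h3 : ∫ x, (2 * I) * (((h x).im : ℂ) * Complex.exp (τ * φ x * I)) ∂mu = 0 := by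
      rw [← this]
      refine integral_congr_ae (Eventually.of_forall fun x => ?_)
      simp only [← sub_mul, Complex.sub_conj]; push_cast; ring
    rw [h3] at h2
    simpa using h2.symm)
  filter_upwards [hre, him] with x h1 h2
  exact Complex.ext h1 h2

lemma sin_complete (g : ℝ → ℂ) (hi : Integrable g mu)
    (h0 : ∀ n : ℕ, ∫ x, g x * (Real.sin ((n + 1) * x) : ℝ) ∂mu = 0) : g =ᵐ[mu] 0 := by
  have ib : ∀ (k : ℕ) (j : ℤ),
      Integrable (fun x => g x * ((Real.cos x ^ k * Real.sin (j * x) : ℝ) : ℂ)) mu := by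
    intro k j
    refine hi.mul_bdd (c := 1) (by fun_prop) (Eventually.of_forall fun x => ?_)
    rw [Complex.norm_real, norm_mul, norm_pow]
    exact mul_le_one₀ (pow_le_one₀ (norm_nonneg _) (abs_cos_le_one x)) (norm_nonneg _)
      (abs_sin_le_one _)
  have h1 : ∀ (k : ℕ) (j : ℤ),
      ∫ x, g x * ((Real.cos x ^ k * Real.sin (j * x) : ℝ) : ℂ) ∂mu = 0 := by
    intro k
    induction k with
    | zero =>
      intro j
      rcases j with (_ | n) | n
      · simp
      · simpa using h0 n
      · have := h0 n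
        rw [← neg_eq_zero, ← integral_neg] at this
        rw [← this]
        refine integral_congr_ae (Eventually.of_forall fun x => ?_)
        have : ((Int.negSucc n : ℤ) : ℝ) * x = -((n + 1) * x) := by
          rw [Int.cast_negSucc]; push_cast; ring
        simp only [this, Real.sin_neg]; push_cast; ring
    | succ k ih =>
      intro j
      have h2 := integral_add (ib k (j + 1)) (ib k (j - 1))
      rw [ih, ih, add_zero] at h2
      have h3 := integral_const_mul (μ := mu) (2:ℂ)
        (fun x => g x * ((Real.cos x ^ (k + 1) * Real.sin (j * x) : ℝ) : ℂ))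
      have h4 : ∫ x, (2:ℂ) * (g x * ((Real.cos x ^ (k + 1) * Real.sin (j * x) : ℝ) : ℂ)) ∂mu
          = 0 := by
        rw [← h2]
        refine integral_congr_ae (Eventually.of_forall fun x => ?_)
        have e1 : ((j + 1 : ℤ) : ℝ) * x = j * x + x := by push_cast; ring
        have e2 : ((j - 1 : ℤ) : ℝ) * x = j * x - x := by push_cast; ring
        simp only [e1, e2, Real.sin_add, Real.sin_sub]; push_cast; ring
      rw [h4] at h3
      simpa using h3.symm
  have hs : Integrable (fun x => g x * (Real.sin x : ℝ)) mu := by simpa using ib 0 1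
  have h5 := uniq Real.cos Real.arccos Real.continuous_cos.measurable
    Real.continuous_arccos.measurable (fun x hx => Real.arccos_cos hx.1.le hx.2.le) _ hs
    (fun τ => by
      have hF : ∀ k : ℕ, (fun x => g x * (Real.sin x : ℝ) * ((τ * Real.cos x * I) ^ k / k.factorial))
          = fun x => ((τ * I) ^ k / k.factorial) *
            (g x * ((Real.cos x ^ k * Real.sin ((1:ℤ) * x) : ℝ) : ℂ)) := by
        intro k; funext x; push_cast; simp only [one_mul, mul_pow]; ring
      have h6 := hasSum_integral_of_summable_integral_norm (μ := mu)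
        (F := fun (k : ℕ) x => g x * (Real.sin x : ℝ) * ((τ * Real.cos x * I) ^ k / k.factorial))
        (fun k => by rw [hF]; exact (ib k 1).const_mul _) ?_
      · have h7 : ∀ k : ℕ, ∫ x, g x * (Real.sin x : ℝ) *
            ((τ * Real.cos x * I) ^ k / k.factorial) ∂mu = 0 := fun k => by
          rw [hF, integral_const_mul, h1, mul_zero]
        simp only [h7] at h6
        rw [← h6.unique hasSum_zero]
        refine integral_congr_ae (Eventually.of_forall fun x => ?_)
        simp only [tsum_mul_left]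
        rw [Complex.exp_eq_exp_ℂ, NormedSpace.exp_eq_tsum_div]
      · refine Summable.of_nonneg_of_le (fun k => integral_nonneg fun x => norm_nonneg _)
          (fun k => ?_) ((Real.summable_pow_div_factorial |τ|).mul_left
            (∫ x, ‖g x * (Real.sin x : ℝ)‖ ∂mu))
        rw [← integral_mul_const]
        refine integral_mono_of_nonneg (Eventually.of_forall fun x => norm_nonneg _)
          (hs.norm.mul_const _) (Eventually.of_forall fun x => ?_)
        simp only
        rw [norm_mul]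
        gcongr
        rw [norm_div, norm_pow, Complex.norm_natCast]
        gcongr
        rw [norm_mul, norm_mul, Complex.norm_I, mul_one, Complex.norm_real, Complex.norm_real]
        exact mul_le_of_le_one_right (abs_nonneg _) (abs_cos_le_one x))
  filter_upwards [h5, ae_restrict_mem measurableSet_Ioo] with x hx hx2
  have : (Real.sin x : ℂ) ≠ 0 := by exact_mod_cast (Real.sin_pos_of_pos_of_lt_pi hx2.1 hx2.2).ne'
  exact (mul_eq_zero.1 hx).resolve_right this

noncomputable def Fz (τ : ℝ) (z : ℂ) : ℂ := Complex.exp (I * τ * Complex.log ((1 - z) / (1 + z)))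

lemma Fz_bd (τ : ℝ) (z : ℂ) : ‖Fz τ z‖ ≤ Real.exp (|τ| * π) := by
  rw [Fz, Complex.norm_exp]
  apply Real.exp_le_exp.2
  simp only [Complex.mul_re, Complex.I_re, Complex.ofReal_re, zero_mul, Complex.I_im,
    Complex.ofReal_im, mul_zero, sub_zero, Complex.mul_im, one_mul, zero_add, zero_sub,
    Complex.log_im]
  refine (neg_le_abs _).trans ?_
  rw [abs_mul]
  gcongr
  exact Complex.abs_arg_le_pi _

lemma Fz_diff (τ : ℝ) {z : ℂ} (h1 : 1 + z ≠ 0) (h2 : (1 - z) / (1 + z) ∈ Complex.slitPlane) :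
    DifferentiableAt ℂ (Fz τ) z := by
  unfold Fz
  have h3 : DifferentiableAt ℂ (fun z : ℂ => (1 - z) / (1 + z)) z :=
    DifferentiableAt.div (by fun_prop) (by fun_prop) h1
  exact ((h3.clog h2).const_mul _).cexp

lemma Fz_diff' (τ : ℝ) {z : ℂ} (hz : ‖z‖ < 1) : DifferentiableAt ℂ (Fz τ) z := by
  have h1 : 1 + z ≠ 0 := by
    intro h
    have : z = -1 := by linear_combination h
    rw [this] at hz; simp at hz
  refine Fz_diff τ h1 (Or.inl ?_)
  rw [Complex.div_re, ← add_div]
  refine div_pos ?_ (Complex.normSq_pos.2 h1)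
  have h2 : ‖z‖ ^ 2 < 1 := by nlinarith [norm_nonneg z]
  rw [Complex.sq_norm, Complex.normSq_apply] at h2
  simp; nlinarith

lemma int_r (τ : ℝ) (m : ℕ) {r : ℝ} (h0 : 0 < r) (h1 : r < 1) :
    ∫ θ in (0:ℝ)..2 * π, Fz τ (r * Complex.exp (θ * I)) * Complex.exp (θ * I) ^ (m + 1) = 0 := by
  have hd : ∀ z ∈ Metric.closedBall (0:ℂ) r, DifferentiableAt ℂ (fun z => Fz τ z * z ^ m) z :=
    fun z hz => (Fz_diff' τ (lt_of_le_of_lt (by simpa using hz) h1)).mul (by fun_prop)
  have h := Complex.circleIntegral_eq_zero_of_differentiable_on_off_countable h0.le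
    countable_empty (fun z hz => (hd z hz).continuousAt.continuousWithinAt)
    (fun z hz => hd z (Metric.ball_subset_closedBall hz.1))
  have h2 := intervalIntegral.integral_const_mul (μ := volume) (a := 0) (b := 2 * π)
    (I * (r:ℂ) ^ (m + 1))
    (fun θ : ℝ => Fz τ (r * Complex.exp (θ * I)) * Complex.exp (θ * I) ^ (m + 1))
  have h3 : ∫ θ in (0:ℝ)..2 * π, (I * (r:ℂ) ^ (m + 1)) *
      (Fz τ (r * Complex.exp (θ * I)) * Complex.exp (θ * I) ^ (m + 1)) = 0 := by
    rw [← h, circleIntegral]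
    refine intervalIntegral.integral_congr fun θ _ => ?_
    simp only [deriv_circleMap, circleMap, zero_add, smul_eq_mul, mul_pow]
    ring
  rw [h3] at h2
  have : I * (r:ℂ) ^ (m + 1) ≠ 0 :=
    mul_ne_zero Complex.I_ne_zero (pow_ne_zero _ (by exact_mod_cast h0.ne'))
  exact (mul_eq_zero.1 h2.symm).resolve_left this

lemma bdry {θ : ℝ} (h : Real.cos (θ / 2) ≠ 0) : 1 + Complex.exp (θ * I) ≠ 0 ∧
    (1 - Complex.exp (θ * I)) / (1 + Complex.exp (θ * I)) = (Real.tan (θ / 2) : ℝ) * (-I) := by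
  have hc : Real.cos θ = 2 * Real.cos (θ / 2) ^ 2 - 1 := by
    rw [← Real.cos_two_mul]; ring_nf
  have hs : Real.sin θ = 2 * Real.sin (θ / 2) * Real.cos (θ / 2) := by
    rw [← Real.sin_two_mul]; ring_nf
  have h1 : 1 + Complex.exp (θ * I) ≠ 0 := by
    intro h2
    have := congrArg Complex.re h2
    simp [hc] at this
    exact h this
  refine ⟨h1, ?_⟩
  rw [div_eq_iff h1, Real.tan_eq_sin_div_cos]
  have h3 := Real.sin_sq_add_cos_sq (θ / 2)
  apply Complex.ext
  · simp only [Complex.sub_re, Complex.one_re, Complex.exp_ofReal_mul_I_re, Complex.mul_re,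
      Complex.ofReal_re, Complex.neg_re, Complex.I_re, Complex.ofReal_im, Complex.neg_im,
      Complex.I_im, Complex.add_re, Complex.mul_im, Complex.add_im, Complex.one_im,
      Complex.exp_ofReal_mul_I_im, hc, hs]
    field_simp
    linear_combination (-2 * Real.cos (θ / 2)) * h3
  · simp only [Complex.sub_im, Complex.one_re, Complex.exp_ofReal_mul_I_re, Complex.mul_re,
      Complex.ofReal_re, Complex.neg_re, Complex.I_re, Complex.ofReal_im, Complex.neg_im,
      Complex.I_im, Complex.add_re, Complex.mul_im, Complex.add_im, Complex.one_im,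
      Complex.exp_ofReal_mul_I_im, hc, hs]
    field_simp
    ring

lemma Fz_meas (τ : ℝ) : Measurable (Fz τ) := by
  unfold Fz
  refine Complex.measurable_exp.comp (Measurable.const_mul (Complex.measurable_log.comp ?_) _)
  fun_prop

lemma int_one (τ : ℝ) (m : ℕ) :
    ∫ θ in (0:ℝ)..2 * π, Fz τ (Complex.exp (θ * I)) * Complex.exp (θ * I) ^ (m + 1) = 0 := by
  have hne : ∀ᵐ θ : ℝ, θ ≠ π ∧ θ ≠ 2 * π := (Measure.ae_ne volume π).and (Measure.ae_ne volume _)
  have h := intervalIntegral.tendsto_integral_filter_of_dominated_convergence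
    (μ := volume) (a := 0) (b := 2 * π) (l := 𝓝[<] (1:ℝ))
    (F := fun (r : ℝ) (θ : ℝ) => Fz τ (r * Complex.exp (θ * I)) * Complex.exp (θ * I) ^ (m + 1))
    (f := fun θ : ℝ => Fz τ (Complex.exp (θ * I)) * Complex.exp (θ * I) ^ (m + 1))
    (fun _ => Real.exp (|τ| * π))
    (Eventually.of_forall fun r =>
      (((Fz_meas τ).comp (by fun_prop)).mul (by fun_prop)).aestronglyMeasurable)
    (Eventually.of_forall fun r => Eventually.of_forall fun θ _ => by
      rw [norm_mul, norm_pow, Complex.norm_exp_ofReal_mul_I, one_pow, mul_one]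
      exact Fz_bd τ _)
    intervalIntegrable_const
    (by
      filter_upwards [hne] with θ hθ hm
      rw [uIoc_of_le (by positivity)] at hm
      have hs : 0 < Real.sin (θ / 2) :=
        Real.sin_pos_of_pos_of_lt_pi (by linarith [hm.1])
          (by linarith [lt_of_le_of_ne hm.2 hθ.2])
      have hc : Real.cos (θ / 2) ≠ 0 := by
        intro h0
        have h1 : θ / 2 = π / 2 := by
          apply Real.injOn_cos ⟨by linarith [hm.1], by linarith [hm.2]⟩
            ⟨by positivity, by linarith [Real.pi_pos]⟩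
          rw [h0, Real.cos_pi_div_two]
        exact hθ.1 (by linarith)
      obtain ⟨b1, b2⟩ := bdry hc
      have hd := (Fz_diff τ b1 (Or.inr (by
        rw [b2, Real.tan_eq_sin_div_cos]
        simp [-Complex.ofReal_div, hs.ne', hc]))).continuousAt
      refine Tendsto.mul_const _ (hd.tendsto.comp ?_)
      have : Continuous fun r : ℝ => (r : ℂ) * Complex.exp (θ * I) := by fun_prop
      simpa using (this.tendsto 1).mono_left nhdsWithin_le_nhds)
  refine tendsto_nhds_unique h (tendsto_const_nhds.congr' ?_)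
  filter_upwards [Ioo_mem_nhdsLT (zero_lt_one' ℝ)] with r hr
  exact (int_r τ m hr.1 hr.2).symm

noncomputable def ph (x : ℝ) : ℝ := Real.log (Real.tan (x / 2))

lemma ph_meas : Measurable ph := by
  unfold ph
  simp only [Real.tan_eq_sin_div_cos]
  fun_prop

noncomputable def uu (τ x : ℝ) : ℂ := Complex.exp (τ * ph x * I)

lemma uu_norm (τ x : ℝ) : ‖uu τ x‖ = 1 := by
  rw [uu, ← Complex.ofReal_mul, Complex.norm_exp_ofReal_mul_I]

lemma uu_meas (τ : ℝ) : Measurable (uu τ) := by
  have := ph_meas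
  unfold uu; fun_prop

lemma rel (τ : ℝ) (m : ℕ) :
    ((Real.exp (τ * π / 2) + Real.exp (-(τ * π / 2)) : ℝ) : ℂ) *
      ∫ x, uu τ x * (Real.cos ((m + 1) * x) : ℝ) ∂mu +
    ((Real.exp (τ * π / 2) - Real.exp (-(τ * π / 2)) : ℝ) : ℂ) * I *
      ∫ x, uu τ x * (Real.sin ((m + 1) * x) : ℝ) ∂mu = 0 := by
  set G := fun θ : ℝ => Fz τ (Complex.exp (θ * I)) * Complex.exp (θ * I) ^ (m + 1) with hG
  have hGm : Measurable G := ((Fz_meas τ).comp (by fun_prop)).mul (by fun_prop)
  have hGb : ∀ θ, ‖G θ‖ ≤ Real.exp (|τ| * π) := fun θ => by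
    rw [hG, norm_mul, norm_pow, Complex.norm_exp_ofReal_mul_I, one_pow, mul_one]
    exact Fz_bd τ _
  have hGi : ∀ a b : ℝ, IntervalIntegrable G volume a b := fun a b =>
    (intervalIntegrable_const (c := Real.exp (|τ| * π))).mono_fun' hGm.aestronglyMeasurable
      (Eventually.of_forall hGb)
  have h1 := intervalIntegral.integral_add_adjacent_intervals (hGi 0 π) (hGi π (2 * π))
  rw [int_one] at h1
  have h2 : ∫ θ in π..2 * π, G θ = ∫ θ in (0:ℝ)..π, G (2 * π - θ) := by
    rw [intervalIntegral.integral_comp_sub_left]; congr 1 <;> ring_nf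
  have hπ := Real.pi_pos.le
  rw [h2, intervalIntegral.integral_of_le hπ, intervalIntegral.integral_of_le hπ,
    integral_Ioc_eq_integral_Ioo, integral_Ioc_eq_integral_Ioo] at h1
  have i1 : Integrable G mu :=
    Integrable.of_bound hGm.aestronglyMeasurable _ (Eventually.of_forall hGb)
  have i2 : Integrable (fun θ => G (2 * π - θ)) mu :=
    Integrable.of_bound (hGm.comp (by fun_prop)).aestronglyMeasurable _
      (Eventually.of_forall fun θ => hGb _)
  have iu : Integrable (uu τ) mu :=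
    Integrable.of_bound (uu_meas τ).aestronglyMeasurable 1
      (Eventually.of_forall fun θ => (uu_norm τ θ).le)
  have i3 : Integrable (fun x => uu τ x * (Real.cos ((m + 1) * x) : ℝ)) mu :=
    iu.mul_bdd (c := 1) (by fun_prop) (Eventually.of_forall fun x => by
      rw [Complex.norm_real]; exact abs_cos_le_one _)
  have i4 : Integrable (fun x => uu τ x * (Real.sin ((m + 1) * x) : ℝ)) mu :=
    iu.mul_bdd (c := 1) (by fun_prop) (Eventually.of_forall fun x => by
      rw [Complex.norm_real]; exact abs_sin_le_one _)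
  rw [← integral_add i1 i2] at h1
  rw [← integral_const_mul, ← integral_const_mul, ← integral_add (i3.const_mul _) (i4.const_mul _),
    ← h1]
  refine integral_congr_ae ((ae_restrict_mem measurableSet_Ioo).mono fun x hx => ?_)
  have ht : 0 < Real.tan (x / 2) :=
    Real.tan_pos_of_pos_of_lt_pi_div_two (by linarith [hx.1]) (by linarith [hx.2])
  have hc : Real.cos (x / 2) ≠ 0 :=
    (Real.cos_pos_of_mem_Ioo ⟨by linarith [hx.1, Real.pi_pos], by linarith [hx.2]⟩).ne'
  have hc' : Real.cos ((-x) / 2) ≠ 0 := by rwa [neg_div, Real.cos_neg]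
  have e0 : Complex.exp (((2 * π - x : ℝ) : ℂ) * I) = Complex.exp (((-x : ℝ) : ℂ) * I) := by
    have : ((2 * π - x : ℝ) : ℂ) * I = ((-x : ℝ) : ℂ) * I + 2 * π * I := by push_cast; ring
    rw [this, Complex.exp_add, Complex.exp_two_pi_mul_I, mul_one]
  have e1 : Fz τ (Complex.exp (x * I)) = Real.exp (τ * π / 2) * uu τ x := by
    rw [Fz, (bdry hc).2, Complex.log_ofReal_mul ht (neg_ne_zero.2 Complex.I_ne_zero),
      Complex.log_neg_I, uu, ph, Complex.ofReal_exp, ← Complex.exp_add]
    congr 1; push_cast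
    linear_combination (-(τ * π / 2 : ℂ)) * Complex.I_mul_I
  have e2 : Fz τ (Complex.exp (((-x : ℝ) : ℂ) * I)) = Real.exp (-(τ * π / 2)) * uu τ x := by
    have : ((Real.tan ((-x) / 2) : ℝ) : ℂ) * (-I) = (Real.tan (x / 2) : ℝ) * I := by
      rw [neg_div, Real.tan_neg]; push_cast; ring
    rw [Fz, (bdry hc').2, this, Complex.log_ofReal_mul ht Complex.I_ne_zero,
      Complex.log_I, uu, ph, Complex.ofReal_exp, ← Complex.exp_add]
    congr 1; push_cast
    linear_combination ((τ * π / 2 : ℂ)) * Complex.I_mul_I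
  have e3 : ∀ y : ℝ, Complex.exp (y * I) ^ (m + 1) =
      (Real.cos ((m + 1) * y) : ℝ) + (Real.sin ((m + 1) * y) : ℝ) * I := fun y => by
    rw [← Complex.exp_nat_mul, Complex.ofReal_cos, Complex.ofReal_sin, ← Complex.exp_mul_I]
    congr 1; push_cast; ring
  simp only [hG, e0]
  simp only [e1, e2, e3, mul_neg, Real.cos_neg, Real.sin_neg]
  push_cast; ring

/-- the Hilbert space `L^2(0, π)` -/
noncomputable abbrev H := Lp ℂ 2 mu

lemma memLp_of (f : ℝ → ℂ) (hf : Measurable f) (C : ℝ) (h : ∀ x, ‖f x‖ ≤ C) : MemLp f 2 mu :=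
  MemLp.of_bound hf.aestronglyMeasurable C (Eventually.of_forall h)

/-- `s n = sqrt (2/π) sin (n t)` -/
noncomputable def s (n : ℕ) : H :=
  (memLp_of (fun t => ((√(2 / π) * Real.sin (n * t) : ℝ) : ℂ)) (by fun_prop) (√(2 / π))
    (fun t => by
      rw [Complex.norm_real, norm_mul, Real.norm_of_nonneg (Real.sqrt_nonneg _)]
      exact mul_le_of_le_one_right (Real.sqrt_nonneg _) (abs_sin_le_one _))).toLp

/-- `c n = sqrt (2/π) cos (n t)` -/
noncomputable def c (n : ℕ) : H :=
  (memLp_of (fun t => ((√(2 / π) * Real.cos (n * t) : ℝ) : ℂ)) (by fun_prop) (√(2 / π))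
    (fun t => by
      rw [Complex.norm_real, norm_mul, Real.norm_of_nonneg (Real.sqrt_nonneg _)]
      exact mul_le_of_le_one_right (Real.sqrt_nonneg _) (abs_cos_le_one _))).toLp

lemma s_coe (n : ℕ) : ⇑(s n) =ᵐ[mu] fun t => ((√(2 / π) * Real.sin (n * t) : ℝ) : ℂ) :=
  MemLp.coeFn_toLp _

lemma c_coe (n : ℕ) : ⇑(c n) =ᵐ[mu] fun t => ((√(2 / π) * Real.cos (n * t) : ℝ) : ℂ) :=
  MemLp.coeFn_toLp _

lemma inner_s (n : ℕ) (g : H) :
    inner ℂ (s n) g = (√(2 / π) : ℝ) * ∫ x, g x * (Real.sin (n * x) : ℝ) ∂mu := by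
  rw [L2.inner_def, ← integral_const_mul]
  refine integral_congr_ae ?_
  filter_upwards [s_coe n] with x hx
  rw [hx, RCLike.inner_apply, Complex.conj_ofReal]; push_cast; ring

lemma inner_c (n : ℕ) (g : H) :
    inner ℂ (c n) g = (√(2 / π) : ℝ) * ∫ x, g x * (Real.cos (n * x) : ℝ) ∂mu := by
  rw [L2.inner_def, ← integral_const_mul]
  refine integral_congr_ae ?_
  filter_upwards [c_coe n] with x hx
  rw [hx, RCLike.inner_apply, Complex.conj_ofReal]; push_cast; ring

lemma s_complete (g : H) (h : ∀ n : ℕ, inner ℂ (s (n + 1)) g = 0) : g = 0 := by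
  have hp : ((√(2 / π) : ℝ) : ℂ) ≠ 0 := by
    exact_mod_cast (Real.sqrt_pos.2 (by positivity : (0:ℝ) < 2 / π)).ne'
  refine Lp.eq_zero_iff_ae_eq_zero.2 (sin_complete g ((Lp.memLp g).integrable one_le_two) ?_)
  intro n
  have := h n
  rw [inner_s] at this
  simpa using (mul_eq_zero.1 this).resolve_left hp

noncomputable def U (τ : ℝ) : H := (memLp_of (uu τ) (uu_meas τ) 1 fun x => (uu_norm τ x).le).toLp

lemma eig (τ : ℝ) : ∃ l : ℂ, ‖l‖ < 1 ∧
    ∀ n : ℕ, inner ℂ (c (n + 1)) (U τ) = l * inner ℂ (s (n + 1)) (U τ) := by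
  set A := Real.exp (τ * π / 2)
  set B := Real.exp (-(τ * π / 2))
  have hA : 0 < A := Real.exp_pos _
  have hB : 0 < B := Real.exp_pos _
  have hAB : ((A + B : ℝ) : ℂ) ≠ 0 := by exact_mod_cast (add_pos hA hB).ne'
  refine ⟨-(((A - B : ℝ) : ℂ) * I) / ((A + B : ℝ) : ℂ), ?_, fun n => ?_⟩
  · rw [norm_div, norm_neg, norm_mul, Complex.norm_I, mul_one, Complex.norm_real,
      Complex.norm_real, div_lt_one (by rw [Real.norm_of_nonneg] <;> positivity),
      Real.norm_of_nonneg (add_pos hA hB).le, Real.norm_eq_abs, abs_lt]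
    constructor <;> linarith
  · have hU := MemLp.coeFn_toLp (memLp_of (uu τ) (uu_meas τ) 1 fun x => (uu_norm τ x).le)
    have e1 : ∫ x, U τ x * (Real.cos ((n + 1 : ℕ) * x) : ℝ) ∂mu =
        ∫ x, uu τ x * (Real.cos ((n + 1) * x) : ℝ) ∂mu :=
      integral_congr_ae (hU.mono fun x hx => by simp only [U]; rw [hx]; push_cast; rfl)
    have e2 : ∫ x, U τ x * (Real.sin ((n + 1 : ℕ) * x) : ℝ) ∂mu =
        ∫ x, uu τ x * (Real.sin ((n + 1) * x) : ℝ) ∂mu :=
      integral_congr_ae (hU.mono fun x hx => by simp only [U]; rw [hx]; push_cast; rfl)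
    rw [inner_c, inner_s, e1, e2]
    have := rel τ n
    field_simp
    linear_combination this

lemma U_complete (f : H) (h : ∀ τ, inner ℂ f (U τ) = 0) : f = 0 := by
  have hi : Integrable f mu := (Lp.memLp f).integrable one_le_two
  have hc : Integrable (fun x => (starRingEnd ℂ) (f x)) mu :=
    (RCLike.conjLIE (K := ℂ)).toContinuousLinearEquiv.toContinuousLinearMap.integrable_comp hi
  have := uniq ph (fun y => 2 * Real.arctan (Real.exp y)) ph_meas (by fun_prop) (fun x hx => by
    have ht : 0 < Real.tan (x / 2) :=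
      Real.tan_pos_of_pos_of_lt_pi_div_two (by linarith [hx.1]) (by linarith [hx.2])
    simp only [ph]
    rw [Real.exp_log ht, Real.arctan_tan (by linarith [hx.1, Real.pi_pos]) (by linarith [hx.2])]
    ring) _ hc (fun τ => by
      rw [← h τ, L2.inner_def]
      refine integral_congr_ae ?_
      filter_upwards [MemLp.coeFn_toLp (memLp_of (uu τ) (uu_meas τ) 1
        fun x => (uu_norm τ x).le)] with x hx
      rw [U, hx, RCLike.inner_apply, uu, mul_comm])
  refine Lp.eq_zero_iff_ae_eq_zero.2 (this.mono fun x hx => ?_)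
  simpa using hx

lemma core (P : H →L[ℂ] H) (hiso : ∀ f, ‖P f‖ = ‖f‖) (hP : ∀ n : ℕ, P (s (n + 1)) = c (n + 1))
    (f : H) (hf : ∀ k : ℕ, ∃ g, P^[k] g = f) : f = 0 := by
  refine U_complete f fun τ => ?_
  obtain ⟨l, hl, he⟩ := eig τ
  have h1 : ContinuousLinearMap.adjoint P (U τ) = l • U τ := by
    rw [← sub_eq_zero]
    refine s_complete _ fun n => ?_
    rw [inner_sub_right, ContinuousLinearMap.adjoint_inner_right, hP, he, inner_smul_right,
      sub_self]
  have h2 : ∀ (k : ℕ) (g : H), inner ℂ (P^[k] g) (U τ) = l ^ k * inner ℂ g (U τ) ∧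
      ‖P^[k] g‖ = ‖g‖ := by
    intro k
    induction k with
    | zero => simp
    | succ k ih =>
      intro g
      rw [Function.iterate_succ_apply', hiso, ← ContinuousLinearMap.adjoint_inner_right, h1,
        inner_smul_right, (ih g).1, (ih g).2]
      exact ⟨by ring, rfl⟩
  have h3 : ∀ k : ℕ, ‖inner ℂ f (U τ)‖ ≤ ‖l‖ ^ k * (‖f‖ * ‖U τ‖) := fun k => by
    obtain ⟨g, rfl⟩ := hf k
    rw [(h2 k g).1, (h2 k g).2, norm_mul, norm_pow]
    gcongr
    exact norm_inner_le_norm _ _
  have h4 := (tendsto_pow_atTop_nhds_zero_of_lt_one (norm_nonneg l) hl).mul_const (‖f‖ * ‖U τ‖)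
  rw [zero_mul] at h4
  exact norm_le_zero_iff.1 (ge_of_tendsto' h4 h3)

lemma int_cos (k : ℤ) : ∫ x, Real.cos (k * x) ∂mu = if k = 0 then π else 0 := by
  rw [← integral_Ioc_eq_integral_Ioo, ← intervalIntegral.integral_of_le Real.pi_pos.le]
  split_ifs with hk
  · simp [hk]
  · have hk' : (k:ℝ) ≠ 0 := by exact_mod_cast hk
    rw [intervalIntegral.integral_comp_mul_left _ hk']
    simp

lemma int_two (e : ℝ) (n m : ℕ) :
    ∫ x, (2 / π) * ((Real.cos (((n - m : ℤ) : ℝ) * x) +
      e * Real.cos (((n + m + 2 : ℤ) : ℝ) * x)) / 2) ∂mu = if n = m then 1 else 0 := by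
  have ic : ∀ k : ℤ, Integrable (fun x => Real.cos (k * x)) mu := fun k =>
    Integrable.of_bound (by fun_prop) 1 (Eventually.of_forall fun x => abs_cos_le_one _)
  rw [integral_const_mul, integral_div, integral_add (ic _) ((ic _).const_mul _),
    integral_const_mul, int_cos, int_cos, if_neg (by omega : ¬ (n + m + 2 : ℤ) = 0)]
  have := Real.pi_pos
  by_cases h : n = m
  · simp [h]
  · rw [if_neg (by omega), if_neg h]; simp

lemma sq2 : ((√(2 / π) : ℝ) : ℂ) * (√(2 / π) : ℝ) = ((2 / π : ℝ) : ℂ) := by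
  rw [← Complex.ofReal_mul, Real.mul_self_sqrt (by positivity)]

lemma on_s : Orthonormal ℂ fun n : ℕ => s (n + 1) := by
  rw [orthonormal_iff_ite]
  intro n m
  have h := congrArg (fun r : ℝ => (r : ℂ)) (int_two (-1) n m)
  simp only [← integral_complex_ofReal] at h
  rw [inner_s, ← integral_const_mul]
  refine Eq.trans (integral_congr_ae ?_) (h.trans (by split_ifs <;> simp))
  filter_upwards [s_coe (m + 1)] with x hx
  have e1 : ((n - m : ℤ) : ℝ) * x = ((n + 1 : ℕ) : ℝ) * x - ((m + 1 : ℕ) : ℝ) * x := by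
    push_cast; ring
  have e2 : ((n + m + 2 : ℤ) : ℝ) * x = ((n + 1 : ℕ) : ℝ) * x + ((m + 1 : ℕ) : ℝ) * x := by
    push_cast; ring
  rw [hx, e1, e2, Real.cos_sub, Real.cos_add, Complex.ofReal_mul (2 / π), ← sq2]
  generalize ((n + 1 : ℕ) : ℝ) * x = a
  generalize ((m + 1 : ℕ) : ℝ) * x = b
  push_cast; ring

lemma on_c : Orthonormal ℂ fun n : ℕ => c (n + 1) := by
  rw [orthonormal_iff_ite]
  intro n m
  have h := congrArg (fun r : ℝ => (r : ℂ)) (int_two 1 n m)
  simp only [← integral_complex_ofReal] at h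
  rw [inner_c, ← integral_const_mul]
  refine Eq.trans (integral_congr_ae ?_) (h.trans (by split_ifs <;> simp))
  filter_upwards [c_coe (m + 1)] with x hx
  have e1 : ((n - m : ℤ) : ℝ) * x = ((n + 1 : ℕ) : ℝ) * x - ((m + 1 : ℕ) : ℝ) * x := by
    push_cast; ring
  have e2 : ((n + m + 2 : ℤ) : ℝ) * x = ((n + 1 : ℕ) : ℝ) * x + ((m + 1 : ℕ) : ℝ) * x := by
    push_cast; ring
  rw [hx, e1, e2, Real.cos_sub, Real.cos_add, Complex.ofReal_mul (2 / π), ← sq2]
  generalize ((n + 1 : ℕ) : ℝ) * x = a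
  generalize ((m + 1 : ℕ) : ℝ) * x = b
  push_cast; ring

/-- the re-expansion operator `P f = sum over n ≥ 1 of <f, s n> c n` -/
noncomputable def P (f : H) : H := ∑' n : ℕ, inner ℂ (s (n + 1)) f • c (n + 1)

lemma exL : ∃ L : H →L[ℂ] H, (∀ f, ‖L f‖ = ‖f‖) ∧
    ∀ f, HasSum (fun n : ℕ => inner ℂ (s (n + 1)) f • c (n + 1)) (L f) := by
  obtain ⟨b, hb⟩ : ∃ b : HilbertBasis ℕ ℂ H, ∀ n, b n = s (n + 1) :=
    ⟨HilbertBasis.mkOfOrthogonalEqBot on_s (by
      rw [eq_bot_iff]
      intro g hg
      exact s_complete g fun n => hg _ (Submodule.subset_span ⟨n, rfl⟩)), fun n => by simp⟩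
  refine ⟨(on_c.orthogonalFamily.linearIsometry.comp
    b.repr.toLinearIsometry).toContinuousLinearMap, fun f => LinearIsometry.norm_map _ f,
    fun f => ?_⟩
  have := on_c.orthogonalFamily.hasSum_linearIsometry (b.repr f)
  simp only [HilbertBasis.repr_apply_apply, hb, LinearIsometry.toSpanSingleton_apply] at this
  exact this

theorem result : (∀ f, HasSum (fun n : ℕ => inner ℂ (s (n + 1)) f • c (n + 1)) (P f)) ∧
    (∀ f, ‖P f‖ = ‖f‖) ∧ (∀ n : ℕ, P (s (n + 1)) = c (n + 1)) ∧
    (⋂ k : ℕ, range (P^[k])) = {0} := by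
  obtain ⟨L, hn, hs⟩ := exL
  have hL : P = ⇑L := funext fun f => (hs f).tsum_eq
  have h3 : ∀ n : ℕ, P (s (n + 1)) = c (n + 1) := fun n => by
    rw [P, tsum_eq_single n fun m hm => by rw [on_s.2 hm, zero_smul]]
    have := orthonormal_iff_ite.1 on_s n n
    simp only [if_true] at this
    rw [this, one_smul]
  refine ⟨fun f => by rw [hL]; exact hs f, fun f => by rw [hL]; exact hn f, h3, ?_⟩
  refine Subset.antisymm (fun f hf => ?_) ?_
  · rw [hL] at hf h3
    exact core L hn h3 f fun k => mem_iInter.1 hf k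
  · rintro f rfl
    refine mem_iInter.2 fun k => ⟨0, ?_⟩
    rw [hL]
    exact Function.iterate_fixed (map_zero _) k

end Pool.Agent.Results.MP_f617a8_an.Yes
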